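import Mathlib

open NumberTheorySymbols

namespace Pool.Agent.Results.MP_208885_nt.Family

/-- the minimal `m`-Markoff triples. -/
def O (m : ℕ) : Set (ℕ × ℕ × ℕ) :=
  {t | 0 < t.1 ∧ t.1 ≤ t.2.1 ∧ t.2.1 ≤ t.2.2 ∧ 3 * t.1 * t.2.1 ≤ t.2.2 ∧
    t.1 ^ 2 + t.2.1 ^ 2 + t.2.2 ^ 2 = 3 * t.1 * t.2.1 * t.2.2 + m}

def M (t : ℕ) : ℕ := 488 + (5 + 2448 * t) ^ 2 + 132 * (5 + 2448 * t)

lemma no2 (t a b : ℕ) : a ^ 2 + b ^ 2 ≠ M t := fun h => by
  have h1 := congrArg (Nat.cast : ℕ → ZMod 9) h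
  have : ∀ a b t : ZMod 9, a ^ 2 + b ^ 2 ≠ 488 + (5 + 2448 * t) ^ 2 + 132 * (5 + 2448 * t) := by
    decide +kernel
  exact this a b t (by simpa [M] using h1)

lemma noEq (t x y : ℕ) : x ^ 2 + x ^ 2 + y ^ 2 + 3 * x * x * y ≠ M t := fun h => by
  have e : ((3 * y + 2 : ℕ) : ℤ) * (3 * y + 2 + 9 * x ^ 2 - 4) =
      (213 + 7344 * t) ^ 2 - 34 * 32 ^ 2 := by
    have h1 := congrArg (Nat.cast : ℕ → ℤ) h
    simp only [M] at h1
    push_cast at h1 ⊢
    linear_combination 9 * h1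
  set u := 3 * y + 2 with hu
  have e16 := congrArg (Int.cast : ℤ → ZMod 16) e
  have e17 := congrArg (Int.cast : ℤ → ZMod 17) e
  push_cast at e16 e17
  have h8 : u % 8 = 3 ∨ u % 8 = 5 := by
    have : ∀ y x t : ZMod 16, (3 * y + 2) * (3 * y + 2 + 9 * x ^ 2 - 4) =
        (213 + 7344 * t) ^ 2 - 34816 → (3 * y + 2).val % 8 = 3 ∨ (3 * y + 2).val % 8 = 5 := by
      decide +kernel
    have h1 := this y x t (by simpa [hu] using e16)
    have h2 : (3 * y + 2 : ZMod 16).val = u % 16 := by rw [← ZMod.val_natCast, hu]; push_cast; rfl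
    omega
  have h17 : ∃ r : ZMod 17, r ≠ 0 ∧ (u : ZMod 17) = r * r := by
    have : ∀ y x t : ZMod 17, (3 * y + 2) * (3 * y + 2 + 9 * x ^ 2 - 4) =
        (213 + 7344 * t) ^ 2 - 34816 → ∃ r : ZMod 17, r ≠ 0 ∧ 3 * y + 2 = r * r := by
      decide +kernel
    simpa [hu] using this y x t (by simpa [hu] using e17)
  have ho : Odd u := Nat.odd_iff.2 (by omega)
  obtain ⟨r, r0, hr⟩ := h17
  have : Fact (Nat.Prime 17) := ⟨by norm_num⟩
  have j17 : J(17 | u) = 1 := by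
    have := jacobiSym.quadratic_reciprocity_one_mod_four (a := 17) (by norm_num) ho
    rw [Nat.cast_ofNat] at this
    rw [this, ← jacobiSym.legendreSym.to_jacobiSym, legendreSym.eq_one_iff]
    · exact ⟨r, by simpa using hr⟩
    · simpa [hr] using r0
  have j2 : J(2 | u) = -1 := by
    rw [jacobiSym.at_two ho, ZMod.χ₈_nat_eq_if_mod_eight, if_neg (by omega), if_neg (by omega)]
  have j3 : J((213 + 7344 * t) ^ 2 | u) = J(2 * 17 * 2 ^ 10 | u) :=
    jacobiSym.mod_left' (Int.modEq_iff_dvd.2 ⟨-(3 * y + 2 + 9 * x ^ 2 - 4), by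
      linear_combination e⟩)
  rw [jacobiSym.mul_left, jacobiSym.mul_left, jacobiSym.pow_left, jacobiSym.pow_left, j2,
    j17] at j3
  nlinarith [sq_nonneg J(213 + 7344 * t | u)]

/-- strictly increasing solutions of the symmetric equation. -/
def S (m : ℕ) : Set (ℕ × ℕ × ℕ) :=
  {t | 0 < t.1 ∧ t.1 < t.2.1 ∧ t.2.1 < t.2.2 ∧
    t.1 ^ 2 + t.2.1 ^ 2 + t.2.2 ^ 2 + 3 * t.1 * t.2.1 * t.2.2 = m}

def F (p : Fin 3 × ℕ × ℕ × ℕ) : ℕ × ℕ × ℕ :=
  ![(p.2.1, p.2.2.1, 3 * p.2.1 * p.2.2.1 + p.2.2.2), (p.2.1, p.2.2.2, 3 * p.2.1 * p.2.2.2 + p.2.2.1),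
    (p.2.2.1, p.2.2.2, 3 * p.2.2.1 * p.2.2.2 + p.2.1)] p.1

lemma O_eq (t : ℕ) : O (M t) = F '' (Set.univ ×ˢ S (M t)) := by
  ext ⟨a, b, c⟩
  simp only [O, Set.mem_ofPred_eq, Set.mem_image, Set.mem_prod, Set.mem_univ, true_and, S]
  constructor
  · rintro ⟨h1, h2, -, h4, h5⟩
    obtain ⟨f, rfl⟩ := Nat.exists_eq_add_of_le h4
    have e : a ^ 2 + b ^ 2 + f ^ 2 + 3 * a * b * f = M t := by linarith
    have n0 : f ≠ 0 := by rintro rfl; exact no2 t a b (by linarith)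
    have n1 : a ≠ b := by rintro rfl; exact noEq t a f e
    have n2 : a ≠ f := by rintro rfl; exact noEq t a b (by linarith)
    have n3 : b ≠ f := by rintro rfl; exact noEq t b a (by linarith)
    rcases (by omega : b < f ∨ (a < f ∧ f < b) ∨ f < a) with h | h | h
    · exact ⟨(0, a, b, f), ⟨h1, by simp; omega, h, e⟩, rfl⟩
    · exact ⟨(1, a, f, b), ⟨h1, h.1, h.2, by simp; linarith⟩, rfl⟩
    · exact ⟨(2, f, a, b), ⟨by simp; omega, h, by simp; omega, by simp; linarith⟩, rfl⟩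
  · rintro ⟨⟨i, x, y, z⟩, ⟨h1, h2, h3, h4⟩, e⟩
    simp only at h1 h2 h3 h4
    fin_cases i <;> simp only [F, Fin.reduceFinMk, Matrix.cons_val, Prod.mk.injEq] at e <;>
      obtain ⟨rfl, rfl, rfl⟩ := e <;>
      exact ⟨by omega, by omega, by nlinarith, by omega, by linarith⟩

theorem result :
    {m : ℕ | 1 < m ∧ (O m).Nonempty ∧ (O m).Finite ∧ 3 ∣ (O m).ncard}.Infinite := by
  refine Set.infinite_of_injective_forall_mem (f := M) (StrictMono.injective fun s t h => ?_)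
    fun t => ?_
  · unfold M; gcongr
  have hf : (S (M t)).Finite := ((Set.finite_Iic (M t)).prod ((Set.finite_Iic (M t)).prod
    (Set.finite_Iic (M t)))).subset (by
      rintro ⟨x, y, z⟩ ⟨-, -, -, h⟩
      simp only [Set.mem_prod, Set.mem_Iic] at h ⊢
      refine ⟨?_, ?_, ?_⟩ <;> nlinarith [Nat.zero_le (3 * x * y * z)])
  refine ⟨by unfold M; omega, ⟨(2, 22, 137 + 2448 * t), by simp, by simp, by simp; omega,
    by simp; omega, by simp only [M]; ring⟩, ?_, ?_⟩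
  · rw [O_eq]; exact (Set.finite_univ.prod hf).image _
  · rw [O_eq, Set.InjOn.ncard_image, Set.ncard_prod]
    · simp
    · rintro ⟨i, x, y, z⟩ ⟨-, -, h2, h3, -⟩ ⟨j, x', y', z'⟩ ⟨-, -, h2', h3', -⟩ e
      simp only at h2 h3 h2' h3'
      fin_cases i <;> fin_cases j <;>
        simp only [F, Fin.reduceFinMk, Matrix.cons_val, Prod.mk.injEq] at e <;>
        obtain ⟨rfl, rfl, e⟩ := e <;> have := Nat.add_left_cancel e <;>
        first | (subst this; rfl) | omega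

end Pool.Agent.Results.MP_208885_nt.Family
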